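import Pool.Agent.Work.MP_5d54aa_co.Graph

/-!
# The peak of the normalized distance coefficients of a tree
-/

set_option autoImplicit false

open Polynomial

namespace Pool.Agent.Results.MP_5d54aa_co.PeakLocation

/-- The distance matrix of `G`. -/
noncomputable def distMatrix {V : Type} (G : SimpleGraph V) : Matrix V V ℤ :=
  Matrix.of fun u v => (G.dist u v : ℤ)

/-- The polynomial `det (D - x I)`, where `D` is the distance matrix of `G`. -/
noncomputable def distPoly {V : Type} [Fintype V] [DecidableEq V] (G : SimpleGraph V) : ℤ[X] :=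
  ((distMatrix G).map C - Matrix.scalar V (X : ℤ[X])).det

/-- The normalized coefficient `|δ k| / 2 ^ (n - k - 2)`, where `δ k` is the coefficient of `x ^ k`
in `det (D - x I)` and `n` is the number of vertices. -/
noncomputable def normCoeff {V : Type} [Fintype V] [DecidableEq V] (G : SimpleGraph V) (k : ℕ) : ℝ :=
  |((distPoly G).coeff k : ℝ)| / 2 ^ (Fintype.card V - k - 2)

lemma abs_coeff {V : Type} [Fintype V] [DecidableEq V] (G : SimpleGraph V) (k : ℕ) :
    |(distPoly G).coeff k| = |(distMatrix G).charpoly.coeff k| := by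
  have h1 : distPoly G = (-1) ^ Fintype.card V * (distMatrix G).charpoly := by
    unfold distPoly
    rw [Matrix.charpoly, Matrix.charmatrix, ← Matrix.det_neg, neg_sub]
    rfl
  rw [h1]
  rcases neg_one_pow_eq_or ℤ[X] (Fintype.card V) with h2 | h2
  · rw [h2, one_mul]
  · rw [h2, neg_one_mul, coeff_neg, abs_neg]

/-- For every tree on `n ≥ 3` vertices some index `k ≤ n - 2` at which the normalized distance
coefficients `d 0, ..., d (n - 2)` are maximal satisfies `⌊n / 2⌋ ≤ k ≤ ⌈(1 - 1 / √5) n⌉`. -/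
theorem result (V : Type) [Fintype V] [DecidableEq V] (G : SimpleGraph V) (hG : G.IsTree)
    (hc : 3 ≤ Fintype.card V) :
    ∃ k : ℕ, k ≤ Fintype.card V - 2 ∧
      (∀ j : ℕ, j ≤ Fintype.card V - 2 → normCoeff G j ≤ normCoeff G k) ∧
      Fintype.card V / 2 ≤ k ∧ k ≤ ⌈(1 - 1 / Real.sqrt 5) * (Fintype.card V : ℝ)⌉₊ := by
  obtain ⟨C, p, hC, hp, hlink, k, hk1, hk2, hk3, hk4⟩ :=
    Pool.Agent.MP_5d54aa_co.tree_peak V G hG hc
  have hdk : ∀ j, j ≤ Fintype.card V - 2 →
      normCoeff G j = C * p j / 2 ^ (Fintype.card V - 2) := by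
    intro j hj
    have h1 := hlink j
    rw [abs_of_nonneg (hp j hj)] at h1
    have e : (2 : ℝ) ^ (Fintype.card V - 2) = 2 ^ (Fintype.card V - j - 2) * 2 ^ j := by
      rw [← pow_add]; congr 1; omega
    have h2 : |((distPoly G).coeff j : ℝ)|
        = |((Pool.Agent.MP_5d54aa_co.distMat G.dist).charpoly.coeff j : ℝ)| := by
      rw [← Int.cast_abs, abs_coeff, Int.cast_abs]; rfl
    unfold normCoeff
    rw [h2, ← h1, e]
    field_simp
  refine ⟨k, hk1, ?_, hk3, hk4⟩
  intro j hj
  rw [hdk j hj, hdk k hk1]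
  have := hk2 j hj
  gcongr

end Pool.Agent.Results.MP_5d54aa_co.PeakLocation
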